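import Pool.Agent.Y614.H.Relu
import Pool.Agent.Y739.G.RGFT
import Pool.Agent.Y290.G.RGCH
import Pool.Agent.Y948.GG.Rgst

/-!
# The graded algebra of a chart (`LocE`): finite type, regularity outside the vertex, stability
-/

set_option autoImplicit false

namespace Pool.Agent.Y614.H

open IsLocalRing Pool.Agent.W418.LU2 Pool.Agent.Y223.G
open Pool.Agent.Y290.G (mem_RG RG_le regular_cmp)

section

variable {k O K G : Type} [CommRing k] [IsNoetherianRing k] [CommRing O] [IsDomain O]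
  [IsDedekindDomain O] [Field K] [Group G] [Algebra k O] [Algebra O K] [Algebra k K]
  [IsScalarTower k O K] {ρ : G →* (K ≃ₐ[k] K)} {T : G →* (O ≃ₐ[k] O)} {N : Type} [Finite N]
  {𝔔 : N → Ideal O} {p l : N → ℕ} {τ : N → G} {π : O}

lemma re_ft (hRFT : S_RFT0) (hL : LocE k O K G ρ T 𝔔 p l τ π) {C : Subalgebra O K}
    (hC : ∀ g, ∀ c ∈ C, ρ g c ∈ C) (hft : Algebra.FiniteType O C) :
    Algebra.FiniteType k (RG k ρ 𝔔 p l τ C) := by
  classical
  cases nonempty_fintype N
  have hpos : ∀ i, 0 < p i := fun i => (hL.ty i).1.pp.pos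
  have hRi : ∀ i, Algebra.FiniteType k (RR k (ρ (τ i)) (p i) (𝔔 i) (l i) C) := fun i =>
    hRFT k O K (p i) (hpos i) (ρ (τ i)) (𝔔 i) (l i) hL.ft (fun o => ⟨_, hL.com (τ i) o⟩) C
      (hC (τ i)) hft
  have hR0 : Algebra.FiniteType k (RR k (1 : K ≃ₐ[k] K) 1 (⊤ : Ideal O) 0 C) :=
    hRFT k O K 1 one_pos 1 ⊤ 0 hL.ft (fun o => ⟨o, rfl⟩) C (fun c hc => hc) hft
  rcases isEmpty_or_nonempty N with hN | hN
  · have h : RG k ρ 𝔔 p l τ C = RR k (1 : K ≃ₐ[k] K) 1 (⊤ : Ideal O) 0 C := by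
      unfold RG
      rw [iInf_of_empty, inf_top_eq]
    rw [h]
    exact hR0
  · -- a partition of unity
    have hcop : (⨆ i ∈ (Finset.univ : Finset N), ⨅ (j) (_ : j ∈ (Finset.univ : Finset N))
        (_ : j ≠ i), 𝔔 j) = ⊤ := by
      rw [Ideal.iSup_iInf_eq_top_iff_pairwise Finset.univ_nonempty]
      intro i _ j _ hij
      exact Ideal.IsMaximal.coprime_of_ne (hL.mx i) (hL.mx j) fun h => hij (hL.dj i j h)
    have h1 : (1 : O) ∈ (⨆ i ∈ (Finset.univ : Finset N), ⨅ (j) (_ : j ∈ (Finset.univ : Finset N))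
        (_ : j ≠ i), 𝔔 j) := by
      rw [hcop]; exact Submodule.mem_top
    rw [Submodule.mem_iSup_finset_iff_exists_sum] at h1
    obtain ⟨μ, hμ⟩ := h1
    have hμj : ∀ i j, j ≠ i → (μ i : O) ∈ 𝔔 j := by
      intro i j hji
      have := (μ i).2
      simp only [Ideal.mem_iInf] at this
      exact this j (Finset.mem_univ j) hji
    rw [← Subalgebra.fg_iff_finiteType]
    have hle : ∀ i, RG k ρ 𝔔 p l τ C ≤ RR k (ρ (τ i)) (p i) (𝔔 i) (l i) C := fun i =>
      inf_le_right.trans (iInf_le _ i)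
    refine Pool.Agent.Y739.G.fg_of_local (RG k ρ 𝔔 p l τ C)
      (fun i => RR k (ρ (τ i)) (p i) (𝔔 i) (l i) C)
      (fun i => hm 0 (algebraMap O K (μ i))) ?_ hle
      (fun i => (Subalgebra.fg_iff_finiteType _).2 (hRi i)) ?_ ⟨Finset.univ, ?_⟩
    · intro i
      refine ⟨RR_c one_pos (C.algebraMap_mem _), ?_⟩
      refine Algebra.mem_iInf.2 fun j => ?_
      exact RR_c (hpos j) (C.algebraMap_mem _)
    · intro i f hf
      exact (t_RELU k O K G ρ T N 𝔔 p l τ π hL C hC).1 i (μ i) (fun j hj => hμj i j hj) f hf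
    · have h2 : ∀ t : Finset N, ∑ i ∈ t, (hm 0 (algebraMap O K (μ i)) : LP K) =
          hm 0 (algebraMap O K (∑ i ∈ t, (μ i : O))) := by
        intro t
        induction t using Finset.induction_on with
        | empty => simp [hm_zero]
        | insert i t hi ih => rw [Finset.sum_insert hi, Finset.sum_insert hi, ih, map_add, hm_add]
      rw [h2, hμ, map_one, hm_one]

lemma re_ch (hWCH : S_WCH) (hRFT : S_RFT0) (hL : LocE k O K G ρ T 𝔔 p l τ π)
    {C : Subalgebra O K} (hC : ∀ g, ∀ c ∈ C, ρ g c ∈ C) (hftC : Algebra.FiniteType O C)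
    (hregC : IsRegularRing C)
    (hregi : ∀ i, IsRegularRing (RR k (ρ (τ i)) (p i) (𝔔 i) (l i) C)) :
    Ch (RG k ρ 𝔔 p l τ C) := by
  classical
  have _ := Fintype.ofFinite N
  have hft : Algebra.FiniteType k (RG k ρ 𝔔 p l τ C) := re_ft hRFT hL hC hftC
  have hns : IsNoetherianRing (RG k ρ 𝔔 p l τ C) := Algebra.FiniteType.isNoetherianRing k _
  have hp : ∀ i, 0 < p i := fun i => (hL.ty i).1.pp.pos
  have hC1 : ∀ c ∈ C, (1 : K ≃ₐ[k] K) c ∈ C := fun c hc => hc
  have hgr : Gr (RG k ρ 𝔔 p l τ C) := by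
    intro f hf d
    rw [mem_RG] at hf ⊢
    exact ⟨RR_gr f hf.1 d, fun i => RR_gr f (hf.2 i) d⟩
  have hss : (hm (-1) 1 : LP K) ∈ RG k ρ 𝔔 p l τ C := mem_RG.2 ⟨RR_s, fun i => RR_s⟩
  have hmC : ∀ (d : ℤ) x, hm d x ∈ RG k ρ 𝔔 p l τ C → x ∈ C := fun d x h =>
    RR_mem_C hC1 (mem_RG.1 h).1
  have hCm : ∀ x ∈ C, hm 0 x ∈ RG k ρ 𝔔 p l τ C := fun x h =>
    mem_RG.2 ⟨RR_c one_pos h, fun i => RR_c (hp i) h⟩
  have hcf : ∀ (d : ℤ) x, hm d x ∈ RG k ρ 𝔔 p l τ C → hm 0 x ∈ RG k ρ 𝔔 p l τ C := fun d x h =>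
    hCm x (hmC d x h)
  have hOm : ∀ o : O, hm 0 (algebraMap O K o) ∈ RG k ρ 𝔔 p l τ C := fun o =>
    hCm _ (C.algebraMap_mem o)
  -- regularity
  have hreg : IsRegularRing (RG k ρ 𝔔 p l τ C) := by
    rcases isEmpty_or_nonempty N with hN | hN
    · refine hWCH k K (RG k ρ 𝔔 p l τ C) hns hgr hss hcf C (C.val : C →+* K)
        Subtype.val_injective ?_ hregC ?_
      · intro y
        constructor
        · intro h
          exact ⟨⟨y, hmC 0 y h⟩, rfl⟩
        · rintro ⟨c, rfl⟩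
          exact hCm _ c.2
      · intro Q hQp hQ
        exfalso
        apply hQp.ne_top
        rw [Ideal.eq_top_iff_one]
        refine hQ 1 1 one_pos ?_
        have h1 : ((C.val : C →+* K) 1 : K) = algebraMap O K 1 := by
          rw [map_one, map_one]
        rw [h1, Nat.cast_one]
        exact mem_RG.2 ⟨RR_e (Submodule.mem_top), fun i => isEmptyElim i⟩
    · rw [isRegularRing_iff]
      intro Q hQ
      -- an element outside `Q`
      obtain ⟨i, s, hs, hsQ⟩ : ∃ (i : N) (s : O), (∀ j, j ≠ i → s ∈ 𝔔 j) ∧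
          (⟨hm 0 (algebraMap O K s), hOm s⟩ : RG k ρ 𝔔 p l τ C) ∉ Q := by
        by_contra hcon
        push Not at hcon
        let φ : O →+* RG k ρ 𝔔 p l τ C :=
          { toFun := fun o => ⟨hm 0 (algebraMap O K o), hOm o⟩
            map_one' := by
              apply Subtype.ext
              change hm 0 (algebraMap O K 1) = 1
              rw [map_one, hm_one]
            map_mul' := fun a b => by
              apply Subtype.ext
              change hm 0 (algebraMap O K (a * b)) =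
                hm 0 (algebraMap O K a) * hm 0 (algebraMap O K b)
              rw [hm_mul, map_mul, add_zero]
            map_zero' := by
              apply Subtype.ext
              change hm 0 (algebraMap O K 0) = 0
              rw [map_zero, hm_zero]
            map_add' := fun a b => by
              apply Subtype.ext
              change hm 0 (algebraMap O K (a + b)) =
                hm 0 (algebraMap O K a) + hm 0 (algebraMap O K b)
              rw [map_add, hm_add] }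
        have hpw : (((Finset.univ : Finset N) : Set N)).Pairwise
            fun i j => 𝔔 i ⊔ 𝔔 j = ⊤ := by
          intro i _ j _ hij
          exact (hL.mx i).coprime_of_ne (hL.mx j) (fun h => hij (hL.dj i j h))
        have htop := (Ideal.iSup_iInf_eq_top_iff_pairwise Finset.univ_nonempty 𝔔).2 hpw
        have hle : (⨆ i ∈ (Finset.univ : Finset N), ⨅ (j) (_ : j ∈ (Finset.univ : Finset N))
            (_ : j ≠ i), 𝔔 j) ≤ Q.comap φ := by
          refine iSup_le fun i => iSup_le fun _ => ?_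
          intro s hs
          refine hcon i s fun j hj => ?_
          simp only [Ideal.mem_iInf] at hs
          exact hs j (Finset.mem_univ _) hj
        rw [htop, top_le_iff] at hle
        have h1 : (1 : O) ∈ Q.comap φ := by rw [hle]; trivial
        rw [Ideal.mem_comap, map_one] at h1
        exact hQ.ne_top ((Ideal.eq_top_iff_one _).2 h1)
      have hs0 : algebraMap O K s ≠ 0 := by
        intro h0
        apply hsQ
        have h1 : (⟨hm 0 (algebraMap O K s), hOm s⟩ : RG k ρ 𝔔 p l τ C) = 0 := by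
          apply Subtype.ext
          change hm 0 (algebraMap O K s) = 0
          rw [h0, hm_zero]
        rw [h1]
        exact Q.zero_mem
      exact regular_cmp (RG_le i) (hregi i) (hOm s) (isUnit_hm hs0)
        ((t_RELU k O K G ρ T N 𝔔 p l τ π hL C hC).1 i s hs) Q hsQ
  refine ⟨hft, hgr, hss, hcf, ?_, ?_⟩
  · choose e he he0 using fun i => Submodule.exists_mem_ne_zero_of_ne_bot (hL.ne i)
    refine ⟨1, algebraMap O K (∏ i, e i), one_pos, ?_, ?_⟩
    · intro h
      rw [← map_zero (algebraMap O K)] at h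
      exact Finset.prod_ne_zero_iff.2 (fun i _ => he0 i) (hL.inj h)
    · rw [Nat.cast_one]
      refine mem_RG.2 ⟨RR_e Submodule.mem_top, fun i => RR_e ?_⟩
      rw [← Finset.mul_prod_erase _ _ (Finset.mem_univ i)]
      exact Ideal.mul_mem_right _ _ (he i)
  · intro n η hn _ hη
    exact regular_loc hreg hn (isUnit_hm hη)

omit [IsNoetherianRing k] [Finite N] in
lemma re_st (hG : S_GENI) (hL : LocE k O K G ρ T 𝔔 p l τ π) {C : Subalgebra O K}
    (hC : ∀ g, ∀ c ∈ C, ρ g c ∈ C) (g : G) (f : LP K) (hf : f ∈ RG k ρ 𝔔 p l τ C) :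
    tl (ρ g) f ∈ RG k ρ 𝔔 p l τ C := by
  unfold RG at hf ⊢
  obtain ⟨hf0, hf1⟩ := Algebra.mem_inf.1 hf
  have hcg : ∀ c ∈ C, ρ g c ∈ C := hC g
  refine Algebra.mem_inf.2 ⟨?_, ?_⟩
  · exact Pool.Agent.Y948.GG.tl_RR (fun e _ => ⟨T g e, Submodule.mem_top, hL.com g e⟩) hcg
      (Or.inl rfl) f hf0
  · rw [Algebra.mem_iInf] at hf1 ⊢
    intro j
    obtain ⟨i, hi, hpi, hli, -, n, hn⟩ := hL.cj g⁻¹ j
    have hfi := hf1 i
    rw [hpi, hli] at hfi
    have hP : ∀ e ∈ 𝔔 i, ∃ e' ∈ 𝔔 j, ρ g (algebraMap O K e) = algebraMap O K e' := by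
      intro e he
      refine ⟨T g e, (hi _).2 ?_, hL.com g e⟩
      have h1 : T g⁻¹ (T g e) = e := by
        rw [← AlgEquiv.mul_apply, ← map_mul, inv_mul_cancel, map_one, AlgEquiv.one_apply]
      rwa [h1]
    have hW := (hL.ty j).1
    have h1 : g * τ i = τ j ^ n * g := by
      rw [hn, conj_pow]
      group
    have h2 : ∀ x, ρ g (ρ (τ i) x) = ρ (τ j ^ n) (ρ g x) := by
      intro x
      rw [← AlgEquiv.mul_apply, ← map_mul, h1, map_mul, AlgEquiv.mul_apply]
    have h3 := Pool.Agent.Y948.GG.tl_RR (p := p j) (l := l j) hP hcg (Or.inr h2) f hfi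
    have h4 := hG k O K (p j) (ρ (τ j)) (T (τ j)) (𝔔 j) (l j) hW C (hC (τ j)) n
    rw [← map_pow] at h4
    exact h4 h3

end

/-- **The graded algebra of a chart.** -/
theorem t_RECH : S_WCH → S_RFT0 → S_GENI → S_RECH := by
  intro hWCH hRFT hG k O K G _ _ _ _ _ _ _ _ _ _ _ ρ T N _ 𝔔 p l τ π hL C hC hft hreg hregi
  exact ⟨re_ch hWCH hRFT hL hC hft hreg hregi, fun g f hf => re_st hG hL hC g f hf⟩

end Pool.Agent.Y614.H
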