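import Pool.Agent.Y223.G.Stm12
import Pool.Agent.Y434.G.RegG

/-!
# Regularity of the products of charts of families of forms with coefficients in the base
(adaptation of Y434.G.RegG; helper223, helper434, helper614)
-/

set_option autoImplicit false

namespace Pool.Agent.Y614.H.RegL

open Pool.Agent.Y223.G
open Pool.Agent.Y177.G (lk le_lk noeth_lk reg_lk reg_of_cover lk_eq adj_le MN_fin O_mem_OL
  inv_mem_OL span_mem exists_notMem)
open Pool.Agent.Y434.G.RegG (GW GW_fin CG_eq)

section forms

/-- **Regularity of the products of charts of families of forms.** -/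
theorem t_REGL : Pool.Agent.Y223.G.S_REGL := by
  intro k O K Ω _ _ _ _ _ _ _ _ _ s hs m z hz hreg d Φ hd hF hF0
  classical
  obtain ⟨inst⟩ := nonempty_fintype Ω
  rw [CG_eq]
  set C := Algebra.adjoin (OL O (K := K) s) (GW z d Φ) with hC
  change IsRegularRing C.toSubring
  have hOL : ∀ x ∈ OL O (K := K) s, x ∈ C.toSubring := fun x hx => C.algebraMap_mem ⟨x, hx⟩
  have hO : ∀ o : O, algebraMap O K o ∈ C.toSubring := fun o => hOL _ (O_mem_OL s o)
  have hk : ∀ c : k, algebraMap k K c ∈ C.toSubring := fun c => by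
    rw [IsScalarTower.algebraMap_apply k O K]; exact hO _
  have hG : ∀ ω, ∀ x ∈ MN (z ω) d, x / Φ ω ∈ C.toSubring := fun ω x hx =>
    Algebra.subset_adjoin ⟨ω, x, hx, rfl⟩
  have hs' : (algebraMap k K s)⁻¹ ∈ C.toSubring := hOL _ (inv_mem_OL s hs)
  have hN : IsNoetherianRing C.toSubring := by
    set C' := Algebra.adjoin O (GW z d Φ) with hC'
    have hft : Algebra.FiniteType O C' := by
      rw [← Subalgebra.fg_iff_finiteType]
      exact ⟨(GW_fin z d Φ).toFinset, by rw [Set.Finite.coe_toFinset]⟩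
    have hN' : IsNoetherianRing C'.toSubring := Algebra.FiniteType.isNoetherianRing O C'
    have hO' : ∀ o : O, algebraMap O K o ∈ C'.toSubring := fun o => C'.algebraMap_mem o
    have hsC' : algebraMap k K s ∈ C'.toSubring := by
      rw [IsScalarTower.algebraMap_apply k O K]; exact hO' _
    have e : lk C'.toSubring (algebraMap k K s) hsC' = C.toSubring := by
      apply le_antisymm
      · rintro x ⟨n, hn⟩
        have h1 : algebraMap k K s ^ n * x ∈ C.toSubring :=
          adj_le _ C.toSubring hO (fun y hy => Algebra.subset_adjoin hy) _ hn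
        have h2 : x = (algebraMap k K s)⁻¹ ^ n * (algebraMap k K s ^ n * x) := by
          rw [← mul_assoc, ← mul_pow, inv_mul_cancel₀ hs, one_pow, one_mul]
        rw [h2]
        exact C.toSubring.mul_mem (C.toSubring.pow_mem hs' n) h1
      · refine adj_le _ _ ?_ ?_
        · rintro ⟨x, n, y, hy⟩
          exact ⟨n, by change _ * x ∈ _; rw [hy]; exact hO' y⟩
        · intro x hx
          exact le_lk _ _ _ (Algebra.subset_adjoin hx)
    rw [← e]
    exact noeth_lk hN' hsC' hs
  apply reg_of_cover _ hN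
  intro Q hQ
  have hex : ∀ ω, ∃ j, ∀ h : z ω j ^ d / Φ ω ∈ C.toSubring, (⟨_, h⟩ : C.toSubring) ∉ Q :=
    fun ω => exists_notMem (AlgEquiv.refl : K ≃ₐ[O] K) 0 (z ω) d hd (Φ ω) (hF ω) (hF0 ω)
      C.toSubring hO (hG ω) Q hQ
  choose J hJ using hex
  have hz' : ∀ ω j, z ω j ^ d ∈ MN (z ω) d := fun ω j => by
    refine ⟨fun l => if l = j then d else 0, by simp, ?_⟩
    rw [Finset.prod_eq_single j]
    · simp
    · intro b _ hb
      simp [hb]
    · intro h; exact absurd (Finset.mem_univ j) h
  set u : K := ∏ ω, z ω (J ω) ^ d / Φ ω with hu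
  set v : K := ∏ ω, Φ ω / z ω (J ω) ^ d with hv
  set B := Algebra.adjoin O {y : K | ∃ (ω : Ω) (l : Fin (m + 1)),
    y = z ω l / z ω (J ω)} with hB
  have hO' : ∀ o : O, algebraMap O K o ∈ B.toSubring := fun o => B.algebraMap_mem o
  have hk' : ∀ c : k, algebraMap k K c ∈ B.toSubring := fun c => by
    rw [IsScalarTower.algebraMap_apply k O K]; exact hO' _
  have huC' : ∀ ω, z ω (J ω) ^ d / Φ ω ∈ C.toSubring := fun ω => hG ω _ (hz' ω _)
  have huC : u ∈ C.toSubring := C.toSubring.prod_mem fun ω _ => huC' ω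
  have hxB : ∀ ω, ∀ x ∈ MN (z ω) d, x / z ω (J ω) ^ d ∈ B.toSubring := by
    rintro ω x ⟨a, ha, rfl⟩
    have e : (∏ l, z ω l ^ a l) / z ω (J ω) ^ d = ∏ l, (z ω l / z ω (J ω)) ^ a l := by
      simp only [div_pow, Finset.prod_div_distrib, Finset.prod_pow_eq_pow_sum, ha]
    rw [e]
    refine B.toSubring.prod_mem fun l _ => ?_
    exact B.toSubring.pow_mem (Algebra.subset_adjoin ⟨ω, l, rfl⟩) _
  have hvB' : ∀ ω, Φ ω / z ω (J ω) ^ d ∈ B.toSubring := fun ω =>
    span_mem (AlgEquiv.refl : K ≃ₐ[O] K) 0 (z ω) d _ B.toSubring hO' (hxB ω) (Φ ω) (hF ω)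
  have hvB : v ∈ B.toSubring := B.toSubring.prod_mem fun ω _ => hvB' ω
  have hvu : v * u = 1 := by
    rw [hu, hv, ← Finset.prod_mul_distrib]
    refine Finset.prod_eq_one fun ω _ => ?_
    rw [div_mul_div_comm, mul_comm (Φ ω), div_self
      (mul_ne_zero (pow_ne_zero _ (hz _ _)) (hF0 _))]
  refine ⟨u, huC, ?_, ?_⟩
  · intro hmem
    have e : (⟨u, huC⟩ : C.toSubring) = ∏ ω, ⟨_, huC' ω⟩ := by
      apply Subtype.ext
      rw [SubmonoidClass.coe_finsetProd]
    rw [e] at hmem
    obtain ⟨ω, _, hi⟩ := (hQ.prod_mem_iff).1 hmem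
    exact hJ ω (huC' ω) hi
  · have h1 : ∀ y ∈ B.toSubring, y ∈ lk C.toSubring u huC := by
      refine adj_le _ _ (fun o => le_lk _ _ _ (hO o)) ?_
      rintro y ⟨ω, l, rfl⟩
      refine ⟨1, ?_⟩
      have e : u ^ 1 * (z ω l / z ω (J ω)) = (z ω l * z ω (J ω) ^ (d - 1) / Φ ω) *
          ∏ ω ∈ Finset.univ.erase ω, (z ω (J ω) ^ d / Φ ω) := by
        rw [pow_one, hu, ← Finset.mul_prod_erase _ _ (Finset.mem_univ ω), mul_right_comm]
        congr 1
        obtain ⟨d', rfl⟩ : ∃ d', d = d' + 1 := ⟨d - 1, by omega⟩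
        rw [Nat.add_sub_cancel]
        have := hz ω (J ω)
        field_simp
        ring
      rw [e]
      refine C.toSubring.mul_mem (hG ω _ ?_) (C.toSubring.prod_mem fun ω _ => huC' ω)
      refine ⟨fun j => (if j = l then 1 else 0) + (if j = J ω then d - 1 else 0), ?_, ?_⟩
      · rw [Finset.sum_add_distrib]
        simp
        omega
      · simp only [pow_add, Finset.prod_mul_distrib]
        congr 1
        · rw [Finset.prod_eq_single l]
          · rw [if_pos rfl, pow_one]
          · intro b _ hb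
            rw [if_neg hb, pow_zero]
          · intro h; exact absurd (Finset.mem_univ l) h
        · rw [Finset.prod_eq_single (J ω)]
          · rw [if_pos rfl]
          · intro b _ hb
            rw [if_neg hb, pow_zero]
          · intro h; exact absurd (Finset.mem_univ (J ω)) h
    have h2 : ∀ c ∈ C.toSubring, c ∈ lk B.toSubring (algebraMap k K s * v)
        (B.toSubring.mul_mem (hk' s) hvB) := by
      refine adj_le _ _ ?_ ?_
      · rintro ⟨x, n, y, hy⟩
        refine ⟨n, ?_⟩
        change _ * x ∈ _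
        have e : (algebraMap k K s * v) ^ n * x = v ^ n * (algebraMap k K s ^ n * x) := by ring
        rw [e, hy]
        exact B.toSubring.mul_mem (B.toSubring.pow_mem hvB n) (hO' y)
      · rintro y ⟨ω, x, hx, rfl⟩
        refine ⟨1, ?_⟩
        have e : (algebraMap k K s * v) ^ 1 * (x / Φ ω) = algebraMap k K s *
            ((x / z ω (J ω) ^ d) * ∏ ω ∈ Finset.univ.erase ω, (Φ ω / z ω (J ω) ^ d)) := by
          rw [pow_one, mul_assoc]
          congr 1
          rw [hv, ← Finset.mul_prod_erase _ _ (Finset.mem_univ ω), mul_right_comm]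
          congr 1
          have := hz ω (J ω)
          have := hF0 ω
          field_simp
        rw [e]
        exact B.toSubring.mul_mem (hk' s) (B.toSubring.mul_mem (hxB ω x hx)
          (B.toSubring.prod_mem fun ω _ => hvB' ω))
    rw [lk_eq B.toSubring C.toSubring u v (algebraMap k K s) huC hvB (hk' s) hs' hs hvu h1 h2]
    exact reg_lk (B := B.toSubring) (hreg J) _ (mul_ne_zero hs (right_ne_zero_of_mul
      (a := u) (by rw [mul_comm, hvu]; exact one_ne_zero)))

end forms

end Pool.Agent.Y614.H.RegL
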