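import Pool.Agent.Y223.G.Stm9
import Pool.Agent.Y363.G.Rglu

/-!
# Comparison of the graded algebra of a chart with the algebras at the ramified primes (`LocE`)
-/

set_option autoImplicit false

namespace Pool.Agent.Y614.H

open Pool.Agent.Y223.G

/-- Comparison of `RG` with the algebras at the ramified primes. -/
def S_RELU : Prop := ∀ (k O K G : Type) [CommRing k] [CommRing O] [IsDomain O] [IsDedekindDomain O]
  [Field K] [Group G] [Algebra k O] [Algebra O K] [Algebra k K] [IsScalarTower k O K]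
  (ρ : G →* (K ≃ₐ[k] K)) (T : G →* (O ≃ₐ[k] O)) (N : Type) [Finite N] (𝔔 : N → Ideal O)
  (p l : N → ℕ) (τ : N → G) (π : O), LocE k O K G ρ T 𝔔 p l τ π → ∀ C : Subalgebra O K,
  (∀ g, ∀ c ∈ C, ρ g c ∈ C) →
  (∀ i (s : O), (∀ j, j ≠ i → s ∈ 𝔔 j) → ∀ f ∈ RR k (ρ (τ i)) (p i) (𝔔 i) (l i) C,
    ∃ n : ℕ, hm 0 (algebraMap O K s) ^ n * f ∈ RG k ρ 𝔔 p l τ C) ∧
  (∀ s : O, (∀ j, s ∈ 𝔔 j) → ∀ f ∈ RR k 1 1 ⊤ 0 C,
    ∃ n : ℕ, hm 0 (algebraMap O K s) ^ n * f ∈ RG k ρ 𝔔 p l τ C)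

theorem t_RELU : S_RELU := by
  intro k O K G _ _ _ _ _ _ _ _ _ _ ρ T N _ 𝔔 p l τ π hL C hC
  have hp : ∀ i, 0 < p i := fun i => (hL.ty i).1.pp.pos
  constructor
  · intro i s hs f hf
    have hf1 := Pool.Agent.Y363.G.le_one (hC (τ i)) hf
    obtain ⟨D, hD⟩ := Pool.Agent.Y363.G.exists_deg f
    refine ⟨D, ?_⟩
    unfold RG
    rw [Algebra.mem_inf, Algebra.mem_iInf]
    refine ⟨Subalgebra.mul_mem _ (Subalgebra.pow_mem _ (Pool.Agent.Y363.G.hm_alg one_pos s) _) hf1,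
      fun j => ?_⟩
    by_cases hj : j = i
    · subst hj
      exact Subalgebra.mul_mem _ (Subalgebra.pow_mem _ (Pool.Agent.Y363.G.hm_alg (hp j) s) _) hf
    · exact Pool.Agent.Y363.G.mult_mem (hp j) (hs j hj) hf1 hD
  · intro s hs f hf
    obtain ⟨D, hD⟩ := Pool.Agent.Y363.G.exists_deg f
    refine ⟨D, ?_⟩
    unfold RG
    rw [Algebra.mem_inf, Algebra.mem_iInf]
    exact ⟨Subalgebra.mul_mem _ (Subalgebra.pow_mem _ (Pool.Agent.Y363.G.hm_alg one_pos s) _) hf,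
      fun j => Pool.Agent.Y363.G.mult_mem (hp j) (hs j) hf hD⟩

end Pool.Agent.Y614.H
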